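import Pool.Agent.J4H77.DT.Slopes

/-!
# Primes `p < n` with `q = ⌊(n - p) / m⌋` prime and `q ^ 2 - 2` almost prime, for all the integers `n` near many given integers
at the same time, up to the sum of very few elements of an arbitrary set which meets every interval `[x, l x]`

Definitions used, in `Pool.Agent.J4H77.DT.Slopes`: `Admissible m n`: the pair `(m, n)` is admissible (the definition of the
problem); `Rep K m n`: there is a prime `p < n` such that `q = ⌊(n - p) / m⌋` is prime, `q ^ 2 - 2` has no prime factor `ℓ` with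
`ℓ ^ K ≤ n`, and `q ^ 2 - 2` has fewer than `2 K` prime factors, counted with multiplicity.

The proof: the elements of the set are chosen at random; the law of their sum has a thin large spectrum (starting files,
`Pool.Agent.Y885.las_lawP`), so that the second moment method for one prime value and sieve weights for the other ones
(starting files `Pool.Agent.N625.PT`) applies to all the translates and to the reflected law, with an exceptional probability of
an arbitrary power of the logarithm.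
-/

set_option autoImplicit false

namespace Pool.Agent.Results.MP_4011c3_nt.ElementsOfAnySets

open Finset Polynomial Pool.Agent.J4H77.DT.Slopes Pool.Agent.H373R2.T7

/-- There is a constant `K` such that for all `l ≥ 2`, `Q ≥ 1`, `T`, `W`, `J` there is a constant `C` with the following
property. Let `D` be ANY set of integers with an element in every interval `[x, l x]`, `x ≥ 1`. For all large `N` and every set
`Y` of at most `log ^ T N` integers between `N` and `B N` there is a set `S` of at most `C (log log N) ^ 2` elements of `D`, all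
between `log ^ H N` and `N / log ^ H N`, with a sum `σ` divisible by `Q`, such that for ALL the integers `n` at a distance of at
most `log ^ W N` from a number `y + σ` or `y - σ`, `y ∈ Y`, and for ALL `1 ≤ m ≤ log ^ J N` for which `(m, n)` is admissible,
there is a prime `p < n` such that `q = ⌊(n - p) / m⌋` is prime, `q ^ 2 - 2` has no prime factor `ℓ` with `ℓ ^ K ≤ n`, and
`q ^ 2 - 2` has fewer than `2 K` prime factors. -/
theorem result : ∃ K : ℕ, 1 ≤ K ∧ ∀ l Q T W J : ℕ, 2 ≤ l → 1 ≤ Q → ∃ C : ℝ, ∀ H B : ℕ, ∃ N₀ : ℕ, ∀ D : Set ℕ,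
    (∀ x : ℕ, 1 ≤ x → ∃ a ∈ D, x ≤ a ∧ a ≤ l * x) → ∀ N : ℕ, N₀ ≤ N → ∀ Y : Finset ℕ, (∀ y ∈ Y, N ≤ y ∧ y ≤ B * N) →
    (Y.card : ℝ) ≤ Real.log N ^ T →
    ∃ S : Finset ℕ, (∀ a ∈ S, a ∈ D ∧ Real.log N ^ H ≤ a ∧ (a : ℝ) ≤ N / Real.log N ^ H) ∧
      (S.card : ℝ) ≤ C * Real.log (Real.log N) ^ 2 ∧ Q ∣ ∑ a ∈ S, a ∧
      ∀ y ∈ Y, ∀ n : ℕ,
        (|(((n : ℤ) - ((y : ℤ) + ((∑ a ∈ S, a : ℕ) : ℤ)) : ℤ) : ℝ)| ≤ Real.log N ^ W ∨
          |(((n : ℤ) - ((y : ℤ) - ((∑ a ∈ S, a : ℕ) : ℤ)) : ℤ) : ℝ)| ≤ Real.log N ^ W) →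
        ∀ m : ℕ, 1 ≤ m → (m : ℝ) ≤ Real.log N ^ J → Admissible m n → Rep K m n := by
  classical
  obtain ⟨K, hK, hdet⟩ := det_N
  refine ⟨8 * K + 1, by omega, fun l Q T W J hl hQ => ?_⟩
  obtain ⟨b, hb, C, hC⟩ := Pool.Agent.J4H77.DT.las_gen l Q T (W + J + 1) J hl hQ (Pool.Agent.N625.PT.AdP J K (8 * K))
    (PN (8 * K)) (hdet J (8 * K))
  refine ⟨C, fun H B => ?_⟩
  obtain ⟨N₀, h0⟩ := hC H B
  obtain ⟨n1, h1⟩ := ev_L' 2
  obtain ⟨G, hG⟩ : ∃ G : ℕ, G = 2 ^ (2 * K) := ⟨_, rfl⟩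
  refine ⟨N₀ + n1 + b ^ (B + 4) + G + 4, fun D hD N hN Y hY hYc => ?_⟩
  have hL := h1 N (by omega)
  obtain ⟨L, hLd⟩ : ∃ L, L = Real.log (N : ℝ) := ⟨_, rfl⟩
  have hL2 : 2 ≤ L := by rw [hLd]; exact hL
  have hL1 : 1 ≤ L := by linarith
  -- the level
  obtain ⟨y0, hy0⟩ : ∃ y0, y0 = Nat.findGreatest (fun y => y ^ (2 * K) ≤ N) N := ⟨_, rfl⟩
  have hy1 : y0 ^ (2 * K) ≤ N := by
    rw [hy0]
    exact Nat.findGreatest_spec (P := fun y => y ^ (2 * K) ≤ N) (m := 2) (by omega) (by rw [← hG]; omega)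
  have hy2 : 2 ≤ y0 := by
    rw [hy0]
    exact Nat.le_findGreatest (by omega) (by rw [← hG]; omega)
  have hy3 : N < (y0 + 1) ^ (2 * K) := by
    by_contra hcon
    push Not at hcon
    have h2 : y0 + 1 ≤ N := by
      calc y0 + 1 = (y0 + 1) ^ 1 := (pow_one _).symm
        _ ≤ (y0 + 1) ^ (2 * K) := Nat.pow_le_pow_right (by omega) (by omega)
        _ ≤ N := hcon
    have h3 : y0 + 1 ≤ Nat.findGreatest (fun y => y ^ (2 * K) ≤ N) N := Nat.le_findGreatest h2 hcon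
    omega
  have hy4 : N < y0 ^ (4 * K) := by
    have h2 : y0 + 1 ≤ y0 ^ 2 := by nlinarith
    calc N < (y0 + 1) ^ (2 * K) := hy3
      _ ≤ (y0 ^ 2) ^ (2 * K) := Nat.pow_le_pow_left h2 _
      _ = y0 ^ (4 * K) := by rw [← pow_mul]; congr 1; ring
  have hy5 : b ^ (B + 4) * N ≤ y0 ^ (8 * K) := by
    calc b ^ (B + 4) * N ≤ N * N := Nat.mul_le_mul_right _ (by omega)
      _ ≤ y0 ^ (4 * K) * y0 ^ (4 * K) := Nat.mul_le_mul hy4.le hy4.le
      _ = y0 ^ (8 * K) := by rw [← pow_add]; congr 1; ring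
  obtain ⟨F, hF⟩ : ∃ F : Finset (ℕ × ℕ), F = (Icc 1 ⌊L ^ J⌋₊).image (fun m => (m, y0)) := ⟨_, rfl⟩
  have hFc : (F.card : ℝ) ≤ Real.log N ^ J := by
    have h2 : F.card ≤ ⌊L ^ J⌋₊ := by
      rw [hF]
      refine card_image_le.trans (le_of_eq ?_)
      rw [Nat.card_Icc]
      omega
    rw [← hLd]
    exact le_trans (by exact_mod_cast h2) (Nat.floor_le (by positivity))
  have hFA : ∀ a ∈ F, ∀ X : ℕ, N ≤ X → X ≤ b ^ (B + 4) * N → Pool.Agent.N625.PT.AdP J K (8 * K) X a := by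
    intro a ha X hX1 hX2
    rw [hF, mem_image] at ha
    obtain ⟨m, hm, rfl⟩ := ha
    rw [mem_Icc] at hm
    refine ⟨hm.1, ?_, hy1.trans hX1, hX2.trans hy5⟩
    have h2 : (m : ℝ) ≤ L ^ J := le_trans (by exact_mod_cast hm.2) (Nat.floor_le (by positivity))
    refine h2.trans (pow_le_pow_left₀ (by linarith) ?_ _)
    rw [hLd]
    apply Real.log_le_log
    · exact_mod_cast (by omega : 0 < N)
    · exact_mod_cast hX1
  obtain ⟨S, s1, s2, s3, s4⟩ := h0 D hD N (by omega) F hFc hFA Y hY hYc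
  refine ⟨S, s1, s2, s3, fun y hy n hor m hm hmJ hadm => ?_⟩
  obtain ⟨r, hr, hcop, hodd⟩ := loc m n hm hadm
  have hn2 := hadm.1
  rw [← hLd] at hor s4 hmJ
  have hrL : (r : ℝ) ≤ L ^ J := le_trans (by exact_mod_cast hr.le) hmJ
  have hWJ : L ^ W + L ^ J ≤ L ^ (W + J + 1) := by
    have e1 : L ^ W ≤ L ^ (W + J) := pow_le_pow_right₀ hL1 (by omega)
    have e2 : L ^ J ≤ L ^ (W + J) := pow_le_pow_right₀ hL1 (by omega)
    have e3 : 0 < L ^ (W + J) := by positivity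
    rw [pow_succ]
    nlinarith
  have hshift : ∀ t : ℤ, |(((n : ℤ) - t : ℤ) : ℝ)| ≤ L ^ W → |((((n - r : ℕ) : ℤ) - t : ℤ) : ℝ)| ≤ L ^ (W + J + 1) := by
    intro t ht
    have e1 : ((((n - r : ℕ) : ℤ) - t : ℤ) : ℝ) = (((n : ℤ) - t : ℤ) : ℝ) - r := by
      rw [Nat.cast_sub (by omega)]
      push_cast
      ring
    rw [e1]
    refine (abs_sub _ _).trans ?_
    rw [abs_of_nonneg (Nat.cast_nonneg r : (0 : ℝ) ≤ r)]
    linarith
  have hkey := s4 y hy (m, y0) (by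
    rw [hF, mem_image]
    exact ⟨m, mem_Icc.2 ⟨hm, Nat.le_floor hmJ⟩, rfl⟩) (n - r) (by
    rcases hor with h | h
    · exact Or.inl (hshift _ h)
    · exact Or.inr (hshift _ h))
  obtain ⟨hle, hpos⟩ := hkey hcop hodd
  simp only at hle hpos
  refine rep_of_pos (8 * K + 1) m n r y0 (n - r) (by omega) hm hr (by omega) ?_ hpos
  intro ℓ hℓ
  have h6 : n ≤ 2 * (n - r) := by omega
  have h7 : ℓ ^ (8 * K + 1) ≤ y0 ^ (8 * K + 1) := by
    calc ℓ ^ (8 * K + 1) ≤ n := hℓ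
      _ ≤ 2 * (n - r) := h6
      _ ≤ y0 * y0 ^ (8 * K) := Nat.mul_le_mul hy2 hle
      _ = y0 ^ (8 * K + 1) := by rw [pow_succ]; ring
  exact (Nat.pow_le_pow_iff_left (by omega)).1 h7

end Pool.Agent.Results.MP_4011c3_nt.ElementsOfAnySets
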