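import Pool.Agent.J4H70.PA.Reg2

/-!
# `q = ⌊(n - p) / m⌋` prime and `q ^ 2 - 2` with at most five prime factors, for almost all `n`, uniformly in `m`

For every `U` there is `C` such that for ALL `m ≥ 1` and all `x ≥ 2`: all but `C x / (log x) ^ U` of the `n ≤ x` for which
the pair `(m, n)` is admissible have a prime `p < n` such that `q = ⌊(n - p) / m⌋` is prime and `q ^ 2 - 2` has at most five
prime factors, counted with multiplicity. (The question asks for `q ^ 2 - 2` prime and for all `n`.)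

Proof. The number five is the one of Richert's theorem for the values of an irreducible quadratic polynomial at primes. For
the sum over the primes `q` with the weights of the weighted sieve, the von Mangoldt function at `n - r - m q` is replaced,
in the second moment over `n`, by its sieve model (the exponential sum of the difference is small on the whole circle), and
the model turns the problem into one weighted sieve for the primes `q` in which the primes `ℓ ≤ (log x) ^ B` have up to three
forbidden classes and the larger ones have only the classes of the roots of `q ^ 2 - 2`. The universal weights of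
`Pool.Agent.Y882.KW.core3` only need regular densities at large primes. For `m` larger than a power of `log x` one takes all
`r < m` together; for `m ≥ x / C` the prime `q = 2` is sufficient.
-/

set_option autoImplicit false

namespace Pool.Agent.Results.MP_4011c3_nt.FivePrimeFactorsAllSlopes

open Finset Filter

/-- the pair `(m, n)` is admissible -/
def Admissible (m n : ℕ) : Prop :=
  2 * m + 1 < n ∧ ((m = 1 ∧ Even n) ∨ (m = 3 ∧ ¬ n ≡ 1 [MOD 6]) ∨ m = 2 ∨ 4 ≤ m)

/-- there is a prime `p < n` such that `q = ⌊(n - p) / m⌋` is prime and `q ^ 2 - 2` has at most five prime factors,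
counted with multiplicity -/
def Rep (m n : ℕ) : Prop :=
  ∃ p q : ℕ, p.Prime ∧ p < n ∧ q = (n - p) / m ∧ q.Prime ∧ (q ^ 2 - 2).primeFactorsList.length ≤ 5

theorem cop (N m k c : ℕ) (h : N + c = m * k ∨ N = m * k + c) (hc : Nat.Coprime c m) : Nat.Coprime N m := by
  by_contra hne
  obtain ⟨p, hp, hpN, hpm⟩ := Nat.Prime.not_coprime_iff_dvd.1 hne
  have h1 : p ∣ m * k := Dvd.dvd.mul_right hpm k
  have h2 : p ∣ c := by
    rcases h with h | h
    · rw [← h] at h1
      exact (Nat.dvd_add_right hpN).1 h1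
    · rw [h] at hpN
      exact (Nat.dvd_add_right h1).1 hpN
  exact (Nat.Prime.not_coprime_iff_dvd.2 ⟨p, hp, h2, hpm⟩) hc

/-- the choice of `r` -/
theorem loc (m n : ℕ) (hm : 1 ≤ m) (h : Admissible m n) : ∃ r, r < m ∧ (n - r).Coprime m ∧ Odd (n - r + m) := by
  obtain ⟨hn, hcase⟩ := h
  have hdm := Nat.div_add_mod (n - 1) m
  have hlt := Nat.mod_lt (n - 1) (show 0 < m by omega)
  generalize hk : (n - 1) / m = k at *
  generalize ha : (n - 1) % m = a at *
  rcases Nat.even_or_odd m with hme | hmo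
  · refine ⟨a, hlt, ?_, ?_⟩
    · exact cop (n - a) m k 1 (Or.inr (by omega)) (Nat.coprime_one_left m)
    · have h1 : n - a = m * k + 1 := by omega
      rw [h1]
      have h2 : Even (m * k) := hme.mul_right k
      obtain ⟨t, ht⟩ := h2
      obtain ⟨s, hs⟩ := hme
      exact ⟨t + s, by omega⟩
  · have h2m : Nat.Coprime 2 m := Nat.coprime_two_left.2 hmo
    obtain ⟨s, hs⟩ := hmo
    rcases Nat.eq_zero_or_pos a with ha0 | ha0
    · rcases Nat.even_or_odd n with hne | hno
      · obtain ⟨t, ht⟩ := hne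
        refine ⟨0, by omega, ?_, ⟨t + s, by omega⟩⟩
        rw [Nat.sub_zero]
        exact cop n m k 1 (Or.inr (by omega)) (Nat.coprime_one_left m)
      · obtain ⟨t, ht⟩ := hno
        have hm5 : 5 ≤ m := by
          rcases hcase with ⟨_, ⟨u, hu⟩⟩ | ⟨h3, h6⟩ | h2 | h4
          · omega
          · exfalso
            apply h6
            unfold Nat.ModEq
            subst h3
            omega
          · omega
          · omega
        refine ⟨3, by omega, ?_, ⟨t + s - 1, by omega⟩⟩
        exact cop (n - 3) m k 2 (Or.inl (by omega)) h2m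
    · rcases Nat.even_or_odd (n - a) with hne | hno
      · obtain ⟨t, ht⟩ := hne
        refine ⟨a, hlt, ?_, ⟨t + s, by omega⟩⟩
        exact cop (n - a) m k 1 (Or.inr (by omega)) (Nat.coprime_one_left m)
      · obtain ⟨t, ht⟩ := hno
        refine ⟨a - 1, by omega, ?_, ⟨t + s + 1, by omega⟩⟩
        exact cop (n - (a - 1)) m k 2 (Or.inr (by omega)) h2m

/-- `n ≤ 3 m + 1`: the primes `p = 2`, `q = 2` -/
theorem small (m n : ℕ) (hm : 1 ≤ m) (h1 : 2 * m + 1 < n) (h2 : n ≤ 3 * m + 1) : Rep m n := by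
  have h3 : (n - 2) / m = 2 := by
    rw [Nat.div_eq_iff (by omega)]
    omega
  refine ⟨2, 2, Nat.prime_two, by omega, h3.symm, Nat.prime_two, ?_⟩
  have e : (2 ^ 2 - 2 : ℕ) = 2 := by norm_num
  rw [e, Nat.primeFactorsList_prime Nat.prime_two]
  simp

open Classical in
/-- one block -/
theorem block (U : ℕ) : ∃ x0 : ℕ, ∀ x : ℕ, x0 ≤ x → ∀ m : ℕ, 1 ≤ m →
    (((Ioc (x / 2) x).filter (fun n : ℕ => Admissible m n ∧ ¬ Rep m n)).card : ℝ) ≤ x / Real.log x ^ U := by
  obtain ⟨A, x1, h1⟩ := Pool.Agent.J4H70.PA.reg2 U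
  obtain ⟨x2, h2⟩ := Pool.Agent.J4H70.PA.reg1 U A
  refine ⟨x1 + x2, fun x hx m hm => ?_⟩
  rcases le_total (m : ℝ) (Real.log x ^ A) with h | h
  · refine le_trans ?_ (h2 x (by omega) m hm h)
    apply Nat.cast_le.2
    apply card_le_card
    intro n hn
    rw [mem_filter] at hn ⊢
    exact ⟨hn.1, loc m n hm hn.2.1, hn.2.2⟩
  · refine le_trans ?_ (h1 x (by omega) m h)
    apply Nat.cast_le.2
    apply card_le_card
    intro n hn
    rw [mem_filter] at hn ⊢
    refine ⟨hn.1, ?_, hn.2.2⟩
    by_contra h3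
    exact hn.2.2 (small m n hm hn.2.1.1 (by omega))

open Classical in
/-- from blocks to all numbers, uniformly -/
theorem cumul (S : ℕ → ℕ → Prop) (U : ℕ)
    (h : ∃ x0 : ℕ, ∀ x : ℕ, x0 ≤ x → ∀ m : ℕ, 1 ≤ m → (((Ioc (x / 2) x).filter (S m)).card : ℝ) ≤ x / Real.log x ^ U) :
    ∃ C : ℝ, 0 < C ∧ ∀ m : ℕ, 1 ≤ m → ∀ x : ℕ, 2 ≤ x → (((Icc 1 x).filter (S m)).card : ℝ) ≤ C * (x / Real.log x ^ U) := by
  obtain ⟨M0, h0⟩ := h
  obtain ⟨M1, h1a, h1⟩ := Pool.Agent.H373R2.T7.PB.log_half U
  obtain ⟨C, hC⟩ : ∃ C : ℝ, C = 4 + Real.log (M0 + M1 : ℕ) ^ U := ⟨_, rfl⟩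
  have hl0 : 0 ≤ Real.log (M0 + M1 : ℕ) ^ U := pow_nonneg (Real.log_natCast_nonneg _) _
  refine ⟨C, by rw [hC]; linarith, ?_⟩
  intro m hm M
  induction M using Nat.strong_induction_on with
  | _ M ih =>
    intro hM
    have hMr : (2 : ℝ) ≤ M := by exact_mod_cast hM
    have hLM : 0 < Real.log M := Real.log_pos (by linarith)
    rcases Nat.lt_or_ge M (M0 + M1) with hs | hs
    · have h2 : (((Icc 1 M).filter (S m)).card : ℝ) ≤ M := by
        have : ((Icc 1 M).filter (S m)).card ≤ M := (card_filter_le _ _).trans (by rw [Nat.card_Icc]; omega)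
        exact_mod_cast this
      refine h2.trans ?_
      rw [← mul_div_assoc, le_div_iff₀ (by positivity)]
      have h3 : Real.log M ≤ Real.log (M0 + M1 : ℕ) := Real.log_le_log (by linarith) (by exact_mod_cast hs.le)
      have h4 : Real.log M ^ U ≤ C := by
        have := pow_le_pow_left₀ hLM.le h3 U
        rw [hC]; linarith
      calc (M : ℝ) * Real.log M ^ U ≤ M * C := mul_le_mul_of_nonneg_left h4 (by linarith)
        _ = C * M := mul_comm _ _
    · have h2 := h0 M (by omega) m hm
      obtain ⟨h3, h4⟩ := h1 M (by omega)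
      have h5 := ih (M / 2) (by omega) (by omega)
      have h6 : ((Icc 1 M).filter (S m)).card ≤ ((Icc 1 (M / 2)).filter (S m)).card + ((Ioc (M / 2) M).filter (S m)).card := by
        calc _ ≤ ((Icc 1 (M / 2)).filter (S m) ∪ (Ioc (M / 2) M).filter (S m)).card := by
              apply card_le_card
              intro n hn
              rw [mem_filter, mem_Icc] at hn
              rw [mem_union, mem_filter, mem_filter, mem_Icc, mem_Ioc]
              rcases Nat.lt_or_ge (M / 2) n with h7 | h7
              · exact Or.inr ⟨⟨h7, hn.1.2⟩, hn.2⟩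
              · exact Or.inl ⟨⟨hn.1.1, h7⟩, hn.2⟩
          _ ≤ _ := card_union_le _ _
      have h6' : (((Icc 1 M).filter (S m)).card : ℝ) ≤ ((Icc 1 (M / 2)).filter (S m)).card +
          ((Ioc (M / 2) M).filter (S m)).card := by exact_mod_cast h6
      have h7 : ((M / 2 : ℕ) : ℝ) ≤ M / 2 := Nat.cast_div_le
      generalize hT : Real.log (M : ℝ) = T at *
      generalize Real.log ((M / 2 : ℕ) : ℝ) = T2 at *
      have hTp : 0 < T ^ U := by positivity
      have hT2p : 0 < T2 ^ U := by positivity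
      have h8 : ((M / 2 : ℕ) : ℝ) / T2 ^ U ≤ (3 / 4) * (M / T ^ U) := by
        rw [div_le_iff₀ hT2p]
        have h9 : (3 / 4) * (M / T ^ U) * T2 ^ U = (M / 2) * ((3 / 2 * T2 ^ U) / T ^ U) := by ring
        rw [h9]
        have h10 : 1 ≤ (3 / 2 * T2 ^ U) / T ^ U := by rw [one_le_div hTp]; exact h3
        calc ((M / 2 : ℕ) : ℝ) ≤ M / 2 := h7
          _ = (M / 2) * 1 := (mul_one _).symm
          _ ≤ _ := mul_le_mul_of_nonneg_left h10 (by linarith)
      have hC4 : 4 ≤ C := by rw [hC]; linarith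
      have h9 : C * (((M / 2 : ℕ) : ℝ) / T2 ^ U) ≤ C * ((3 / 4) * (M / T ^ U)) := mul_le_mul_of_nonneg_left h8 (by linarith)
      have h10 : 0 ≤ M / T ^ U := by positivity
      nlinarith

open Classical in
/-- **Theorem.** For every `U` there is `C` such that for all `m ≥ 1` and `x ≥ 2` at most `C x / (log x) ^ U` integers
`1 ≤ n ≤ x` for which `(m, n)` is admissible have no prime `p < n` such that `q = ⌊(n - p) / m⌋` is prime and `q ^ 2 - 2`
has at most five prime factors. -/
theorem result : ∀ U : ℕ, ∃ C : ℝ, 0 < C ∧ ∀ m : ℕ, 1 ≤ m → ∀ x : ℕ, 2 ≤ x →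
    (((Icc 1 x).filter (fun n : ℕ => Admissible m n ∧ ¬ Rep m n)).card : ℝ) ≤ C * (x / Real.log x ^ U) := by
  intro U
  obtain ⟨x0, hx0⟩ := block U
  obtain ⟨C, hC, h⟩ := cumul (fun m n => Admissible m n ∧ ¬ Rep m n) U ⟨x0, fun x hx m hm => by convert hx0 x hx m hm⟩
  exact ⟨C, hC, fun m hm x hx => by convert h m hm x hx⟩

end Pool.Agent.Results.MP_4011c3_nt.FivePrimeFactorsAllSlopes
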