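import Pool.Agent.J4H77.DT.Slopes
import Pool.Agent.J4H77.DT.Rs

/-!
# Primes `p < n` with `q = ⌊(n - p) / m⌋` prime and `q ^ 2 - 2` almost prime, for all the integers `n` near almost all sums of
independent random integers, with up to two fifths of the scales missing

Definitions used, in `Pool.Agent.J4H77.DT.Slopes`: `Admissible m n`: the pair `(m, n)` is admissible (the definition of the
problem); `Rep K m n`: there is a prime `p < n` such that `q = ⌊(n - p) / m⌋` is prime, `q ^ 2 - 2` has no prime factor `ℓ` with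
`ℓ ^ K ≤ n`, and `q ^ 2 - 2` has fewer than `2 K` prime factors, counted with multiplicity.

The proof: the law of a sum of independent random integers, one at every scale, has a thin large spectrum (starting files,
`Pool.Agent.Y885.rand_law`), so that the second moment method for one prime value and sieve weights for the other ones
(starting files `Pool.Agent.N625.PT`) applies to all small translates of the sum.
-/

set_option autoImplicit false

namespace Pool.Agent.Results.MP_4011c3_nt.RandomSums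

open Finset Polynomial Pool.Agent.J4H77.DT.Slopes Pool.Agent.H373R2.T7

/-- The set `J` of scales below `k` is rich: it contains more than three fifths of all the scales, more than one half
of the `m` lowest scales, and a positive proportion of the `m` highest scales (the last two conditions are
void for `m ≤ D log k`). -/
structure Rich (δ : ℝ) (D k : ℕ) (J : Finset ℕ) : Prop where
  lt : ∀ j ∈ J, j < k
  all : (3 / 5 + δ) * k ≤ (J.card : ℝ)
  low : ∀ m ≤ k, (1 / 2 + δ) * m ≤ ((J.filter fun j => j < m).card : ℝ) + D * Real.log k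
  high : ∀ m ≤ k, δ * m ≤ ((J.filter fun j => k - m ≤ j).card : ℝ) + D * Real.log k

open Classical in
/-- The probability of the event `E` if `x 0, ..., x (k - 1)` are independent random integers, where `x j` takes
its values in the finite set `s j`, and the value `x` with the probability `p j x`. -/
noncomputable def Prob (k : ℕ) (s : ℕ → Finset ℤ) (p : ℕ → ℤ → ℝ) (E : (Fin k → ℤ) → Prop) : ℝ :=
  ∑ x ∈ Fintype.piFinset (fun j : Fin k => s j), if E x then ∏ j : Fin k, p j (x j) else 0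

open Classical in
/-- There is a constant `K` with the following property. Let `b ≥ 2`, `B ≥ 1`, `D`, `T`, `U`, `W`, `η > 0` and `δ > 0` be fixed,
let `k` be large, and let `J` be an arbitrary rich set of scales below `k`. Let `x 0, ..., x (k - 1)` be arbitrary independent
random integers with `|x j| ≤ B b ^ j` such that, for all `j` in `J`, no interval of the length `b ^ j / B` contains `x j` with
a probability larger than `1 - η` (nothing is assumed for the other `j`: these `x j` may be constants). Let `c` be an arbitrary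
integer with `|c| ≤ B b ^ k`. Then, with a probability of at least `1 - 1 / k ^ U`, ALL the integers `n` at a distance of at
most `k ^ W` from `c + x 0 + ... + x (k - 1)` and ALL `1 ≤ m ≤ k ^ T` for which `(m, n)` is admissible satisfy `Rep K m n`. -/
theorem result : ∃ K : ℕ, 1 ≤ K ∧ ∀ b B D T U W : ℕ, 2 ≤ b → 1 ≤ B → ∀ η δ : ℝ, 0 < η → 0 < δ →
    ∃ k₀ : ℕ, ∀ k : ℕ, k₀ ≤ k → ∀ J : Finset ℕ, Rich δ D k J → ∀ (s : ℕ → Finset ℤ) (p : ℕ → ℤ → ℝ),
      (∀ j < k, (∀ x ∈ s j, 0 ≤ p j x ∧ |x| ≤ (B : ℤ) * (b : ℤ) ^ j) ∧ ∑ x ∈ s j, p j x = 1) →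
      (∀ j ∈ J, ∀ y : ℤ, ∑ x ∈ (s j).filter (fun x => y ≤ x ∧ (B : ℤ) * (x - y) ≤ (b : ℤ) ^ j), p j x ≤ 1 - η) →
      ∀ c : ℤ, |c| ≤ (B : ℤ) * (b : ℤ) ^ k →
        Prob k s p (fun x => ¬ ∀ n : ℕ, |(n : ℤ) - (c + ∑ j, x j)| ≤ (k : ℤ) ^ W → ∀ m : ℕ, 1 ≤ m → m ≤ k ^ T →
          Admissible m n → Rep K m n) ≤ 1 / (k : ℝ) ^ U := by
  obtain ⟨K, hK, hdet⟩ := det_N
  refine ⟨8 * K + 1, by omega, fun b B D T U W hb hB η δ hη hδ => ?_⟩
  obtain ⟨k₀, hmain⟩ := Pool.Agent.J4H77.DT.rs_gen b B D (W + T + 1) T U hb hB η δ hη hδ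
    (Pool.Agent.N625.PT.AdP (T + 1) K (8 * K)) (PN (8 * K)) (hdet (T + 1) (8 * K))
  obtain ⟨z0, hz0⟩ : ∃ z0 : ℕ, z0 = 2 ^ (T + 1) := ⟨_, rfl⟩
  refine ⟨k₀ + z0 + 2 * K + 4, fun k hk J hJ s p hs hp c hc => ?_⟩
  have hk2 : 2 ^ (T + 1) ≤ k := by rw [← hz0]; omega
  have hk4 : 4 ≤ k := by omega
  obtain ⟨y, hy⟩ : ∃ y, y = b ^ (k / (2 * K)) := ⟨_, rfl⟩
  have hkK : 1 ≤ k / (2 * K) := Nat.div_pos (by omega) (by omega)
  have hy2 : 2 ≤ y := by
    rw [hy]
    calc 2 ≤ b := hb
      _ = b ^ 1 := (pow_one b).symm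
      _ ≤ b ^ (k / (2 * K)) := Nat.pow_le_pow_right (by omega) hkK
  obtain ⟨F, hF⟩ : ∃ F : Finset (ℕ × ℕ), F = (Icc 1 (k ^ T)).image (fun m => (m, y)) := ⟨_, rfl⟩
  have hFc : F.card ≤ k ^ T := by
    rw [hF]
    refine card_image_le.trans (le_of_eq ?_)
    rw [Nat.card_Icc]
    omega
  have hAd : ∀ a ∈ F, ∀ K' : ℕ, k ≤ K' → K' ≤ 2 * k → Pool.Agent.N625.PT.AdP (T + 1) K (8 * K) (b ^ K') a := by
    intro a ha K' hK1 hK2
    rw [hF, mem_image] at ha
    obtain ⟨m, hm, rfl⟩ := ha
    rw [mem_Icc] at hm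
    obtain ⟨hm1, hm2⟩ := hm
    refine ⟨hm1, ?_, ?_, ?_⟩
    · simp only
      have hbr : (2 : ℝ) ≤ b := by exact_mod_cast hb
      have hl : (k : ℝ) / 2 ≤ Real.log ((b ^ K' : ℕ) : ℝ) := by
        push_cast
        rw [Real.log_pow]
        have g1 : (1 : ℝ) / 2 ≤ Real.log b := by
          have := Real.log_two_gt_d9
          have := Real.log_le_log (by norm_num) hbr
          linarith
        have g2 : (k : ℝ) ≤ K' := by exact_mod_cast hK1
        have g3 : (0 : ℝ) ≤ k := Nat.cast_nonneg _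
        nlinarith
      have hk0 : (0 : ℝ) < k := by exact_mod_cast (by omega : 0 < k)
      calc (m : ℝ) ≤ (k : ℝ) ^ T := by exact_mod_cast hm2
        _ ≤ ((k : ℝ) / 2) ^ (T + 1) := by
            rw [div_pow, le_div_iff₀ (by positivity), pow_succ (k : ℝ)]
            apply mul_le_mul_of_nonneg_left _ (by positivity)
            exact_mod_cast hk2
        _ ≤ Real.log ((b ^ K' : ℕ) : ℝ) ^ (T + 1) := pow_le_pow_left₀ (by positivity) hl _
    · simp only
      rw [hy, ← pow_mul]
      apply Nat.pow_le_pow_right (by omega)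
      exact (Nat.div_mul_le_self k (2 * K)).trans hK1
    · simp only
      rw [hy, ← pow_mul]
      apply Nat.pow_le_pow_right (by omega)
      have h5 := Nat.lt_div_mul_add (a := k) (b := 2 * K) (by omega)
      have h6 : k / (2 * K) * (2 * K) + 2 * K ≤ 2 * (k / (2 * K) * (2 * K)) := by
        have : 2 * K ≤ k / (2 * K) * (2 * K) := Nat.le_mul_of_pos_left _ hkK
        omega
      calc K' ≤ 2 * k := hK2
        _ ≤ 2 * (2 * (k / (2 * K) * (2 * K))) := by omega
        _ = k / (2 * K) * (8 * K) := by ring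
  have h3 := hmain k (by omega) J s p c ⟨hJ.lt, hJ.low, hJ.high, hJ.all⟩ hs (fun j hj y => by
      rw [← sum_filter]; exact hp j hj y) hc F hFc hAd
  refine le_trans ?_ h3
  unfold Prob
  apply sum_le_sum
  intro x hx
  have hnn : 0 ≤ ∏ j : Fin k, p j (x j) := by
    rw [Fintype.mem_piFinset] at hx
    exact prod_nonneg fun j _ => ((hs j j.2).1 _ (hx j)).1
  by_cases h4 : ∀ n : ℕ, |(n : ℤ) - (c + ∑ j, x j)| ≤ (k : ℤ) ^ W → ∀ m : ℕ, 1 ≤ m → m ≤ k ^ T → Admissible m n → Rep (8 * K + 1) m n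
  · rw [if_neg (not_not.2 h4)]
    split_ifs
    · exact hnn
    · exact le_rfl
  · rw [if_pos h4, if_pos]
    push Not at h4
    obtain ⟨n, hn, m, hm1, hm2, hadm, hrep⟩ := h4
    obtain ⟨r, hr, hcop, hodd⟩ := loc m n hm1 hadm
    have hn2 := hadm.1
    have hkz : (1 : ℤ) ≤ (k : ℤ) := by exact_mod_cast (by omega : 1 ≤ k)
    refine ⟨(m, y), ?_, n - r, by omega, ?_, ?_⟩
    · rw [hF, mem_image]
      exact ⟨m, mem_Icc.2 ⟨hm1, hm2⟩, rfl⟩
    · have e1 : ((n - r : ℕ) : ℤ) - (c + ∑ j, x j) = ((n : ℤ) - (c + ∑ j, x j)) - r := by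
        rw [Nat.cast_sub (by omega)]
        ring
      have e2 : |((n : ℤ) - (c + ∑ j, x j)) - r| ≤ |(n : ℤ) - (c + ∑ j, x j)| + r := by
        refine (abs_sub _ _).trans (le_of_eq ?_)
        rw [Nat.abs_cast]
      have e3 : (r : ℤ) ≤ (k : ℤ) ^ T := by
        have : r ≤ k ^ T := by omega
        exact_mod_cast this
      rw [e1]
      refine e2.trans ?_
      have e4 : (k : ℤ) ^ W ≤ (k : ℤ) ^ (W + T) := pow_le_pow_right₀ hkz (by omega)
      have e5 : (k : ℤ) ^ T ≤ (k : ℤ) ^ (W + T) := pow_le_pow_right₀ hkz (by omega)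
      have e6 : (4 : ℤ) ≤ k := by exact_mod_cast hk4
      have e7 : 0 < (k : ℤ) ^ (W + T) := by positivity
      rw [pow_succ]
      nlinarith
    · intro hP
      apply hrep
      obtain ⟨hle, hpos⟩ := hP hcop hodd
      simp only at hle hpos
      refine rep_of_pos (8 * K + 1) m n r y (n - r) (by omega) hm1 hr (by omega) ?_ hpos
      intro ℓ hℓ
      have h6 : n ≤ 2 * (n - r) := by omega
      have h7 : ℓ ^ (8 * K + 1) ≤ y ^ (8 * K + 1) := by
        calc ℓ ^ (8 * K + 1) ≤ n := hℓ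
          _ ≤ 2 * (n - r) := h6
          _ ≤ y * y ^ (8 * K) := Nat.mul_le_mul hy2 hle
          _ = y ^ (8 * K + 1) := by rw [pow_succ]; ring
      exact (Nat.pow_le_pow_iff_left (by omega)).1 h7

end Pool.Agent.Results.MP_4011c3_nt.RandomSums
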