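import Pool.Agent.J4H77.LP.Floor
import Pool.Agent.J4H77.DT.Energy

/-!
# The number of the primes `p < n` for which `⌊(n - p) / m⌋` is prime, for all the integers `n` near almost all members of
arbitrary thin families of integers with nearly minimal additive energy

Definitions used. In `Pool.Agent.J4H77.LP.Floor`: `Admissible m n`: the pair `(m, n)` is admissible (the definition of the
problem); `reps m n`: the number of the primes `p < n` for which `⌊(n - p) / m⌋` is prime; `offsets m n`: the set of the `j < m`
for which there is no local obstruction to `n - j = p + m q` (`n - j` is prime to `m`, and `n - j + m` is odd); `main m n`: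
the expected number of the `p`, the sum over `j ∈ offsets m n` of `sing (m (n - j)) (n / m) / log ^ 2 n`; `Holds ε M n`: for all
`1 ≤ m ≤ M`, `|reps m n - main m n| ≤ ε main m n + 2 m`, and there is a prime `p < n` with `⌊(n - p) / m⌋` prime if `(m, n)` is
admissible. In `Pool.Agent.H560R3.GB`: `C₂`: the twin prime constant `∏_{p > 2} (1 - 1 / (p - 1) ^ 2)`; `sing k`: the singular
series `2 C₂ ∏_{p ∣ k, p > 2} (p - 1) / (p - 2)`.

The proof: the family has a thin large spectrum (moments and additive energy); the von Mangoldt function at the values of a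
linear form is replaced by its sieve model in the second moment (starting files `Pool.Agent.Y885`), and the model is computed
by the fundamental lemma (starting files `Pool.Agent.N469.LP`).
-/

set_option autoImplicit false

namespace Pool.Agent.Results.MP_4011c3_nt.ThinFamilies

open Finset Pool.Agent.J4H77.LP.Floor

open Classical in
/-- The additive energy of order `h` of a finite family of integers `v i`: the number of solutions of
`v (a 1) + ... + v (a h) = v (b 1) + ... + v (b h)`. -/
noncomputable def energy (h : ℕ) {ι : Type} [Fintype ι] (v : ι → ℤ) : ℕ :=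
  Nat.card {q : (Fin h → ι) × (Fin h → ι) // ∑ j, v (q.1 j) = ∑ j, v (q.2 j)}

open Classical in
/-- The number of the members `v i` of the family for which `Holds` fails for some integer `n` at a distance of at most `R` from
`v i`. -/
noncomputable def exceptions (ε R : ℝ) (M : ℕ) {ι : Type} [Fintype ι] (v : ι → ℤ) : ℕ :=
  (univ.filter (fun i => ∃ n : ℕ, |(((n : ℤ) - v i : ℤ) : ℝ)| ≤ R ∧ ¬ Holds ε M n)).card

/-- Let `h ≥ 1`, `B`, `C`, `M`, `W`, `U` and `ε > 0` be fixed, and let `N` be large. Let `v i`, `i ∈ ι`, be an arbitrary finite
family of integers `≤ B N` (an integer may occur several times; the members may be negative) whose additive energy of order `h`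
is at most `log ^ C N` times `(#ι) ^ (2 h) / N` (up to the power of the logarithm this is the least possible energy of a family
with members in `[0, N]`, and the family may have as few as `N ^ (1 / h)` members). Then all the members of the family, with at
most `#ι / log ^ U N` exceptions, have the following property: for ALL the integers `n ≥ 0` at a distance of at most `log ^ W N`
from the member and ALL `1 ≤ m ≤ M`, the number of the primes `p < n` for which `⌊(n - p) / m⌋` is prime is as predicted, up to
a relative error of at most `ε` and at most `2 m` degenerate representations, and there is such a prime `p` if the pair `(m, n)`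
is admissible. -/
theorem result (h B C M W U : ℕ) (hh : 1 ≤ h) (ε : ℝ) (hε : 0 < ε) :
    ∃ N₀ : ℕ, ∀ N : ℕ, N₀ ≤ N → ∀ (ι : Type) [Fintype ι] (v : ι → ℤ), (∀ i, v i ≤ B * N) →
      (energy h v : ℝ) * N ≤ Real.log N ^ C * (Fintype.card ι : ℝ) ^ (2 * h) →
      (exceptions ε (Real.log N ^ W) M v : ℝ) ≤ Fintype.card ι / Real.log N ^ U := by
  classical
  obtain ⟨ε', hε'⟩ : ∃ ε', ε' = min ε 1 := ⟨_, rfl⟩
  have he0 : 0 < ε' := by rw [hε']; exact lt_min hε (by norm_num)
  have he1 : ε' ≤ ε := by rw [hε']; exact min_le_left _ _
  have he2 : ε' ≤ 1 := by rw [hε']; exact min_le_right _ _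
  have hmono : ∀ n, Holds ε' M n → Holds ε M n := by
    intro n h k hk hkM
    obtain ⟨q1, q2⟩ := h k hk hkM
    refine ⟨q1.trans ?_, q2⟩
    have q3 : 0 ≤ main k n := by
      unfold main
      apply sum_nonneg
      intro j _
      have := Pool.Agent.W93.GB.one_le_sing (k * (n - j))
      positivity
    have := mul_le_mul_of_nonneg_right he1 q3
    linarith
  obtain ⟨N₀, h0⟩ := Pool.Agent.J4H77.DT.thin_gen h B C W U hh (fun _ n => Holds ε M n) (by
    intro B' W' U'
    refine ⟨Pool.Agent.J4H77.LP.VL (W + 1) 0 (W' + 1) (U' + 1), (M + 1) * (B' + 1 + 2 + M * (B' + 1 + 3) + 1) + 2, fun e he c => ?_⟩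
    obtain ⟨N₀, h0⟩ := tl_floor 2 3 le_rfl (by norm_num) ε' he0 he2 B' W W' U' M e he c
    refine ⟨N₀, fun N hN ι Ω p Y hlaw hY hbad => ?_⟩
    have h1 := h0 N hN ι Ω p Y hlaw hY (fun _ => True) (fun _ => inferInstance) (fun ω hω _ => by
      obtain ⟨n, n1, n2, n3⟩ := hbad ω hω
      exact ⟨n, n1, n2, fun h4 => n3 (hmono n h4)⟩)
    refine le_trans (le_of_eq ?_) h1
    apply sum_congr rfl
    intro ω _
    rw [if_pos trivial])
  refine ⟨N₀, fun N hN ι _ v hv hE => ?_⟩
  have h1 := h0 N hN ι v hv hE
  unfold exceptions
  refine le_trans ?_ h1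
  apply Nat.cast_le.2
  apply card_le_card
  intro i hi
  rw [mem_filter] at hi ⊢
  exact hi

end Pool.Agent.Results.MP_4011c3_nt.ThinFamilies
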